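import Mathlib

/-!
# Burnside's theorem and Kolchin's theorem for irreducible operators
-/

namespace Pool.Agent.N96.TB

open Module

/-- **Burnside's theorem**. -/
theorem burn {V : Type*} [AddCommGroup V] [Module ℂ V] [FiniteDimensional ℂ V] [Nontrivial V]
    (R : Subalgebra ℂ (Module.End ℂ V))
    (h : ∀ U : Submodule ℂ V, (∀ r ∈ R, ∀ u ∈ U, r u ∈ U) → U = ⊥ ∨ U = ⊤)
    (x : Module.End ℂ V) : x ∈ R := by
  classical
  have hsimp : IsSimpleModule R V := by
    rw [isSimpleModule_iff]
    exact
      { eq_bot_or_eq_top := fun U => by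
          have h1 := h (U.restrictScalars ℂ) (fun r hr u hu => U.smul_mem (⟨r, hr⟩ : R) hu)
          rcases h1 with h1 | h1
          · left
            rwa [Submodule.restrictScalars_eq_bot_iff] at h1
          · right
            rwa [Submodule.restrictScalars_eq_top_iff] at h1 }
  have hsc := IsSimpleModule.algebraMap_end_bijective_of_isAlgClosed (A := R) (V := V) ℂ
  let f : Module.End (Module.End R V) V :=
    { toFun := x
      map_add' := x.map_add
      map_smul' := fun φ v => by
        obtain ⟨c, rfl⟩ := hsc.2 φ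
        exact x.map_smul c v }
  let b := Module.finBasis ℂ V
  obtain ⟨r, hr⟩ := jacobson_density f (Finset.univ.image b)
  have h3 : x = (r : Module.End ℂ V) := by
    refine b.ext fun i => ?_
    exact hr _ (Finset.mem_image_of_mem _ (Finset.mem_univ i))
  rw [h3]
  exact r.2

/-- The trace of an operator with only one eigenvalue. -/
theorem trace_one {V : Type*} [AddCommGroup V] [Module ℂ V] [FiniteDimensional ℂ V]
    (f : Module.End ℂ V) (c : ℂ) (h : ∀ v : V, v ≠ 0 → ∀ b : ℂ, f v = b • v → b = c) :
    LinearMap.trace ℂ V f = (finrank ℂ V : ℂ) * c := by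
  have hs : f.charpoly.Splits := IsAlgClosed.splits _
  rw [Module.End.trace_eq_sum_roots_charpoly_of_splits hs]
  have h1 : f.charpoly.roots = Multiset.replicate (finrank ℂ V) c := by
    rw [Multiset.eq_replicate]
    constructor
    · rw [← hs.natDegree_eq_card_roots, LinearMap.charpoly_natDegree]
    · intro b hb
      have h2 : f.HasEigenvalue b := by
        rw [Module.End.hasEigenvalue_iff_isRoot_charpoly]
        exact (Polynomial.mem_roots'.1 hb).2
      obtain ⟨v, hv⟩ := h2.exists_hasEigenvector
      exact h v hv.2 b hv.apply_eq_smul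
  rw [h1, Multiset.sum_replicate, nsmul_eq_mul]

/-- The trace form is nondegenerate. -/
theorem eq_zero_of_trace {V : Type*} [AddCommGroup V] [Module ℂ V] [FiniteDimensional ℂ V]
    (x : Module.End ℂ V) (h : ∀ y : Module.End ℂ V, LinearMap.trace ℂ V (x * y) = 0) : x = 0 := by
  ext v
  refine (Module.forall_dual_apply_eq_zero_iff ℂ (x v)).1 fun φ => ?_
  have h1 := h (LinearMap.smulRight φ v)
  have h2 : x * LinearMap.smulRight φ v = LinearMap.smulRight φ (x v) := by
    ext w
    simp
  rwa [h2, LinearMap.trace_smulRight] at h1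

/-- **Kolchin's theorem** for an irreducible group. -/
theorem kolchin {V : Type*} [AddCommGroup V] [Module ℂ V] [FiniteDimensional ℂ V] {G : Type*}
    [Group G] (τ : G →* Module.End ℂ V) (c : G →* ℂ)
    (hirr : ∀ U : Submodule ℂ V, (∀ g, ∀ u ∈ U, τ g u ∈ U) → U = ⊥ ∨ U = ⊤)
    (h : ∀ g, ∀ v : V, v ≠ 0 → ∀ b : ℂ, τ g v = b • v → b = c g) (g : G) (v : V) :
    τ g v = c g • v := by
  rcases subsingleton_or_nontrivial V with hV | hV
  · exact Subsingleton.elim _ _
  let R := Algebra.adjoin ℂ (Set.range τ)
  have hR : ∀ x : Module.End ℂ V, x ∈ R := by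
    refine burn R fun U hU => hirr U fun g u hu => hU _ ?_ u hu
    exact Algebra.subset_adjoin ⟨g, rfl⟩
  have htr : ∀ g, LinearMap.trace ℂ V (τ g) = (finrank ℂ V : ℂ) * c g := fun g =>
    trace_one (τ g) (c g) (h g)
  have hx : τ g - c g • 1 = 0 := by
    refine eq_zero_of_trace _ fun y => ?_
    have hy : y ∈ Subalgebra.toSubmodule R := hR y
    rw [Algebra.adjoin_eq_span] at hy
    induction hy using Submodule.span_induction with
    | mem y hy =>
      have h1 : y ∈ MonoidHom.mrange τ := by
        have h2 : Submonoid.closure (Set.range τ) ≤ MonoidHom.mrange τ := by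
          rw [Submonoid.closure_le]
          rintro _ ⟨g, rfl⟩
          exact ⟨g, rfl⟩
        exact h2 hy
      obtain ⟨k, rfl⟩ := h1
      rw [sub_mul, smul_mul_assoc, one_mul, map_sub, ← map_mul, htr, LinearMap.map_smul, htr,
        map_mul, smul_eq_mul]
      ring
    | zero => simp
    | add a b _ _ ha hb => rw [mul_add, map_add, ha, hb, add_zero]
    | smul a b _ hb => rw [mul_smul_comm, LinearMap.map_smul, hb, smul_zero]
  have h3 := LinearMap.congr_fun hx v
  simpa [sub_eq_zero] using h3

end Pool.Agent.N96.TB
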