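import Pool.Agent.N204.TB.Stm
import Pool.Agent.N96.TB.KO0

/-!
# Task KO of project TB: Kolchin for semisimple representations
-/

namespace Pool.Agent.N96.TB

open Matrix Module
open Pool.Agent.N204.TB

section

variable {N : Type} [Fintype N] [DecidableEq N] {G : Type} [Group G]

/-- The representation on a stable subspace. -/
noncomputable def res (ρ : G →* Matrix N N ℂ) (U : Submodule ℂ (N → ℂ))
    (hU : Stb (Set.range ρ) U) : G →* Module.End ℂ U where
  toFun g := (Matrix.toLin' (ρ g)).restrict (p := U) (q := U)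
    fun u hu => by rw [Matrix.toLin'_apply]; exact hU _ ⟨g, rfl⟩ u hu
  map_one' := by
    ext u
    simp
  map_mul' g h := by
    ext u
    simp [Matrix.mulVec_mulVec]

theorem res_apply (ρ : G →* Matrix N N ℂ) (U : Submodule ℂ (N → ℂ))
    (hU : Stb (Set.range ρ) U) (g : G) (u : U) :
    ((res ρ U hU g u : U) : N → ℂ) = ρ g *ᵥ (u : N → ℂ) := rfl

theorem ko_irr (ρ : G →* Matrix N N ℂ) (c : G →* ℂ) (U : Submodule ℂ (N → ℂ))
    (hU : Stb (Set.range ρ) U)
    (hc : ∀ g, ∀ u ∈ U, u ≠ 0 → ∀ b : ℂ, ρ g *ᵥ u = b • u → b = c g)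
    (hirr : ∀ W ≤ U, Stb (Set.range ρ) W → W = ⊥ ∨ W = U) (g : G) (u : N → ℂ) (hu : u ∈ U) :
    ρ g *ᵥ u = c g • u := by
  have h1 := kolchin (res ρ U hU) c (fun W hW => by
    have hst : Stb (Set.range ρ) (W.map U.subtype) := by
      rintro _ ⟨g, rfl⟩ _ ⟨w, hw, rfl⟩
      exact ⟨res ρ U hU g w, hW g w hw, rfl⟩
    rcases hirr (W.map U.subtype) (Submodule.map_subtype_le U W) hst with h | h
    · left
      rw [eq_bot_iff]
      intro w hw
      have h2 : (w : N → ℂ) ∈ W.map U.subtype := ⟨w, hw, rfl⟩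
      rw [h, Submodule.mem_bot] at h2
      exact (Submodule.mem_bot ℂ).2 (Subtype.ext h2)
    · right
      rw [eq_top_iff]
      intro w _
      have h2 : (w : N → ℂ) ∈ W.map U.subtype := by rw [h]; exact w.2
      obtain ⟨w', hw', h3⟩ := h2
      have h4 : w' = w := Subtype.ext h3
      exact h4 ▸ hw')
    (fun g v hv b hb => hc g v v.2 (fun h => hv (Subtype.ext h)) b
      (by rw [← res_apply ρ U hU, hb]; rfl)) g ⟨u, hu⟩
  exact congrArg (Subtype.val) h1

theorem ko_main (ρ : G →* Matrix N N ℂ) (c : G →* ℂ) (hS : Semi (Set.range ρ)) (n : ℕ) :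
    ∀ U : Submodule ℂ (N → ℂ), finrank ℂ U = n → Stb (Set.range ρ) U →
    (∀ g, ∀ u ∈ U, u ≠ 0 → ∀ b : ℂ, ρ g *ᵥ u = b • u → b = c g) →
    ∀ g, ∀ u ∈ U, ρ g *ᵥ u = c g • u := by
  induction n using Nat.strong_induction_on with
  | _ n ih =>
    intro U hn hU hc
    by_cases hirr : ∀ W ≤ U, Stb (Set.range ρ) W → W = ⊥ ∨ W = U
    · intro g u hu
      exact ko_irr ρ c U hU hc hirr g u hu
    · push Not at hirr
      obtain ⟨W, hWU, hWst, hW0, hW1⟩ := hirr
      obtain ⟨W', hW'st, hcompl⟩ := hS W hWst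
      have hlt : W < U := lt_of_le_of_ne hWU hW1
      have hst2 : Stb (Set.range ρ) (W' ⊓ U) := fun s hs u hu => ⟨hW'st s hs u hu.1, hU s hs u hu.2⟩
      have hlt2 : W' ⊓ U < U := by
        refine lt_of_le_of_ne inf_le_right fun h => hW0 ?_
        have h1 : U ≤ W' := by rw [← h]; exact inf_le_left
        rw [eq_bot_iff, ← hcompl.inf_eq_bot]
        exact le_inf le_rfl (hWU.trans h1)
      have hsup : W ⊔ (W' ⊓ U) = U := by
        rw [← sup_inf_assoc_of_le W' hWU, hcompl.sup_eq_top, top_inf_eq]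
      have e1 := ih _ (hn ▸ Submodule.finrank_lt_finrank_of_lt hlt) W rfl hWst
        (fun g u hu => hc g u (hWU hu))
      have e2 := ih _ (hn ▸ Submodule.finrank_lt_finrank_of_lt hlt2) (W' ⊓ U) rfl hst2
        (fun g u hu => hc g u hu.2)
      intro g u hu
      rw [← hsup] at hu
      obtain ⟨a, ha, b, hb, rfl⟩ := Submodule.mem_sup.1 hu
      rw [Matrix.mulVec_add, e1 g a ha, e2 g b hb, smul_add]

end

/-- **Task KO.** -/
theorem ko : S_KO := by
  intro N _ _ G _ ρ c hS U hU hc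
  exact ko_main ρ c hS _ U rfl hU hc

end Pool.Agent.N96.TB
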